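import Pool.Agent.TPer.Fin

/-! The maximal period `M(d)` of complements of integer tiles of diameter `d` is determined up to a
factor `d^O(1)`: `log M(d) = max_{1 ≤ n ≤ d} ω(n) log (d / n) + O(log d)`; in particular
`log M(d) = (1/4 + o(1)) (log d)^2 / log log d`. -/

namespace Pool.Agent.Results.MP_adb430_co.MaximalPeriod

open Filter

/-- `A ⊕ B = ℤ`: every integer is `a + b` with `a ∈ A`, `b ∈ B` in exactly one way. -/
def Tiles (A : Finset ℤ) (B : Set ℤ) : Prop :=
  ∀ n : ℤ, ∃! p : ℤ × ℤ, p.1 ∈ A ∧ p.2 ∈ B ∧ p.1 + p.2 = n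

/-- `m ≥ 1` is a period of `B`. -/
def IsPeriod (B : Set ℤ) (m : ℕ) : Prop :=
  0 < m ∧ ∀ x : ℤ, x + m ∈ B ↔ x ∈ B

/-- `m` is the minimal period of `B`. -/
def IsMinPeriod (B : Set ℤ) (m : ℕ) : Prop :=
  IsLeast {k : ℕ | IsPeriod B k} m

/-- The finite set `A` is nonempty and `max A - min A = d`. -/
def HasDiam (A : Finset ℤ) (d : ℕ) : Prop :=
  (∃ a ∈ A, ∃ a' ∈ A, a' - a = d) ∧ ∀ a ∈ A, ∀ a' ∈ A, a' - a ≤ d

/-- The minimal periods of all complements of all finite sets of diameter `d`. -/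
def minPeriods (d : ℕ) : Set ℕ :=
  {m | ∃ (A : Finset ℤ) (B : Set ℤ), HasDiam A d ∧ Tiles A B ∧ IsMinPeriod B m}

/-- `M(d)`: the largest of these minimal periods. -/
noncomputable def maxPeriod (d : ℕ) : ℕ := sSup (minPeriods d)

/-- The number of distinct prime factors. -/
def omega (n : ℕ) : ℕ := n.primeFactors.card

/-- The main term: the largest value of `ω(n) log (d / n)` for `1 ≤ n ≤ d`. -/
noncomputable def mainTerm (d : ℕ) : ℝ :=
  sSup {x : ℝ | ∃ n : ℕ, 1 ≤ n ∧ n ≤ d ∧ x = omega n * Real.log ((d : ℝ) / n)}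

theorem mainTerm_eq (d : ℕ) (hd : 1 ≤ d) : mainTerm d = Pool.Agent.TPer.mainTerm d := by
  unfold mainTerm Pool.Agent.TPer.mainTerm omega
  congr 1
  ext x
  constructor
  · rintro ⟨n, h1, h2, rfl⟩
    refine ⟨n, h1, h2, ?_⟩
    rw [Real.log_div (by positivity) (by positivity)]
  · rintro ⟨n, h1, h2, rfl⟩
    refine ⟨n, h1, h2, ?_⟩
    rw [Real.log_div (by positivity) (by positivity)]

theorem exists_minPeriod {A : Finset ℤ} {B : Set ℤ} (hT : Tiles A B) : ∃ m, IsMinPeriod B m := by
  obtain ⟨m, hm⟩ := Pool.Agent.TilePer.Tiles.periodic (A := A) (B := B) hT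
  classical
  have hne : ∃ k, IsPeriod B k := ⟨m, hm⟩
  exact ⟨Nat.find hne, Nat.find_spec hne, fun k hk => Nat.find_min' hne hk⟩

theorem isGreatest (d : ℕ) : IsGreatest (minPeriods d) (maxPeriod d) := by
  have hbdd : BddAbove (minPeriods d) := by
    obtain ⟨R, hR⟩ := Pool.Agent.TPer.bdd_main d
    refine ⟨R, ?_⟩
    rintro m ⟨A, B, hA, hT, hm⟩
    exact hR A B m hT hA.2 hm
  have hne : (minPeriods d).Nonempty := by
    obtain ⟨A, B, hA, hT⟩ := Pool.Agent.TPer.exists_tile d
    obtain ⟨m, hm⟩ := exists_minPeriod (A := A) (B := B) hT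
    exact ⟨m, A, B, hA, hT, hm⟩
  exact ⟨Nat.sSup_mem hne hbdd, fun m hm => le_csSup hbdd hm⟩

/-- The maximum `M(d)` exists for every `d`; for every complement `B` of a set `A` of diameter `d ≥ 1` with
`n` elements, `w = ω(n)`, the minimal period is at most `2^w n d (2 (w + 1) d / n)^w`; and
`log M(d) = max_{1 ≤ n ≤ d} ω(n) log (d / n) + O(log d)`, `log M(d) ~ (log d)^2 / (4 log log d)`. -/
theorem result :
    (∀ (A : Finset ℤ) (B : Set ℤ), Tiles A B → ∃ m, IsMinPeriod B m) ∧
    (∀ d : ℕ, IsGreatest (minPeriods d) (maxPeriod d)) ∧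
    (∀ (d : ℕ) (A : Finset ℤ) (B : Set ℤ) (m : ℕ), 1 ≤ d → HasDiam A d → Tiles A B →
      IsMinPeriod B m →
      (m : ℝ) ≤ 2 ^ omega A.card * A.card * d *
        (2 * (omega A.card + 1) * ((d : ℝ) / A.card)) ^ omega A.card) ∧
    (∃ C : ℝ, ∀ d : ℕ, 2 ≤ d → |Real.log (maxPeriod d) - mainTerm d| ≤ C * Real.log d) ∧
    Tendsto (fun d : ℕ => Real.log (maxPeriod d) / ((Real.log d) ^ 2 / Real.log (Real.log d)))
      atTop (nhds (1 / 4)) := by
  have herr : ∃ C : ℝ, ∀ d : ℕ, 2 ≤ d →
      |Real.log (maxPeriod d) - mainTerm d| ≤ C * Real.log d := by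
    obtain ⟨C1, hC1⟩ := Pool.Agent.TPer.upper_main
    obtain ⟨C2, hC2⟩ := Pool.Agent.TPer.low_main
    refine ⟨max C1 C2, fun d hd => ?_⟩
    have hlog : 0 ≤ Real.log d := Real.log_natCast_nonneg d
    have hM := isGreatest d
    rw [mainTerm_eq d (by omega), abs_le]
    constructor
    · have h1 : Pool.Agent.TPer.mainTerm d ≤
          Real.log (maxPeriod d) + max C1 C2 * Real.log d := by
        refine Pool.Agent.TPer.mainTerm_le (by omega) fun n h1 h2 => ?_
        obtain ⟨A, B, hT, hA, hB⟩ := hC2 d hd n h1 h2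
        obtain ⟨m, hm⟩ := exists_minPeriod (A := A) (B := B) hT
        have h3 : m ≤ maxPeriod d := hM.2 ⟨A, B, hA, hT, hm⟩
        have h4 := hB m hm.1
        have hm0 : 0 < m := hm.1.1
        have h5 : Real.log m ≤ Real.log (maxPeriod d) :=
          Real.log_le_log (by exact_mod_cast hm0) (by exact_mod_cast h3)
        have h6 : C2 * Real.log d ≤ max C1 C2 * Real.log d :=
          mul_le_mul_of_nonneg_right (le_max_right _ _) hlog
        linarith
      linarith
    · obtain ⟨A, B, hA, hT, hm⟩ := hM.1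
      have h1 := hC1 d hd A B (maxPeriod d) hT hA.2 hm
      have h6 : C1 * Real.log d ≤ max C1 C2 * Real.log d :=
        mul_le_mul_of_nonneg_right (le_max_left _ _) hlog
      linarith
  refine ⟨fun A B hT => exists_minPeriod hT, isGreatest, ?_, herr, ?_⟩
  · intro d A B m hd hA hT hm
    have h1 := Pool.Agent.TPer.upper_int (A := A) (B := B) hT hd hA.2 hm
    have hne : A.Nonempty := Pool.Agent.TilePer.Tiles.nonempty (A := A) (B := B) hT
    have hc : (0 : ℝ) < A.card := by exact_mod_cast Finset.card_pos.mpr hne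
    have hd' : (0 : ℝ) < d := by exact_mod_cast hd
    have hm0 : (0 : ℝ) < m := by exact_mod_cast hm.1.1
    unfold omega
    set w := A.card.primeFactors.card with hw
    have hw1 : (0 : ℝ) < (w : ℝ) + 1 := by positivity
    rw [← Real.log_le_log_iff hm0 (by positivity)]
    refine h1.trans (le_of_eq ?_)
    rw [Real.log_mul (by positivity) (by positivity), Real.log_mul (by positivity) (by positivity),
      Real.log_mul (by positivity) (by positivity), Real.log_pow, Real.log_pow,
      Real.log_mul (by positivity) (by positivity), Real.log_mul (by positivity) (by positivity),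
      Real.log_div (by positivity) (by positivity)]
    ring
  · obtain ⟨C, hC⟩ := herr
    have h1 := Pool.Agent.TPer.tendsto_of_bounds (f := fun d => Real.log (maxPeriod d))
      (g := Pool.Agent.TPer.mainTerm) Pool.Agent.TPer.mainTerm_upper
      Pool.Agent.TPer.mainTerm_lower (C := C) (fun d hd => by
        have := hC d hd
        rwa [mainTerm_eq d (by omega)] at this)
    refine h1.congr fun d => ?_
    rw [div_div_eq_mul_div]

end Pool.Agent.Results.MP_adb430_co.MaximalPeriod
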