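import Pool.Agent.TilePer.PrimePow

/-! Tiles of prime power size: the minimal period of every complement is at most
`p / (p - 1)` times the diameter, and this is sharp for every prime. -/

namespace Pool.Agent.Results.MP_adb430_co.PrimePower

/-- `A ⊕ B = ℤ`: every integer is `a + b` with `a ∈ A`, `b ∈ B` in exactly one way. -/
def Tiles (A : Finset ℤ) (B : Set ℤ) : Prop :=
  ∀ n : ℤ, ∃! p : ℤ × ℤ, p.1 ∈ A ∧ p.2 ∈ B ∧ p.1 + p.2 = n

/-- `m ≥ 1` is a period of `B`. -/
def IsPeriod (B : Set ℤ) (m : ℕ) : Prop :=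
  0 < m ∧ ∀ x : ℤ, x + m ∈ B ↔ x ∈ B

/-- `m` is the minimal period of `B`. -/
def IsMinPeriod (B : Set ℤ) (m : ℕ) : Prop :=
  IsLeast {k : ℕ | IsPeriod B k} m

/-- The finite set `A` is nonempty and `max A - min A = d`. -/
def HasDiam (A : Finset ℤ) (d : ℕ) : Prop :=
  (∃ a ∈ A, ∃ a' ∈ A, a' - a = d) ∧ ∀ a ∈ A, ∀ a' ∈ A, a' - a ≤ d

theorem upper {A : Finset ℤ} {B : Set ℤ} {p k d m : ℕ} (hp : p.Prime) (hk : 0 < k)
    (hcard : A.card = p ^ k) (hA : HasDiam A d) (hT : Tiles A B) (hm : IsMinPeriod B m) :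
    (p - 1) * m ≤ p * d := by
  have hT' : Pool.Agent.TilePer.Tiles A B := hT
  have hm' : IsLeast {k : ℕ | Pool.Agent.TilePer.IsPeriod B k} m := hm
  exact hT'.prime_pow_bound hm' hp hk hcard (fun a ha a' ha' => hA.2 a' ha' a ha)

/-- `n` equally spaced points with gap `L`, and the complement made of blocks of length `L`. -/
theorem lower {n L : ℕ} (hn : 2 ≤ n) (hL : 0 < L) :
    ∃ (A : Finset ℤ) (B : Set ℤ), A.card = n ∧ HasDiam A ((n - 1) * L) ∧ Tiles A B ∧
      IsMinPeriod B (n * L) := by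
  have hL' : (0 : ℤ) < L := by exact_mod_cast hL
  have hn' : (2 : ℤ) ≤ n := by exact_mod_cast hn
  have hnL : (0 : ℤ) < (n : ℤ) * L := by positivity
  refine ⟨(Finset.range n).image (fun i : ℕ => (i : ℤ) * L), {x | x % ((n : ℤ) * L) < L}, ?_, ?_,
    ?_, ?_⟩
  · rw [Finset.card_image_of_injective, Finset.card_range]
    intro i j hij
    simp only at hij
    have := mul_right_cancel₀ hL'.ne' hij
    exact_mod_cast this
  · refine ⟨⟨0, ?_, ((n - 1 : ℕ) : ℤ) * L, ?_, ?_⟩, ?_⟩
    · rw [Finset.mem_image]; exact ⟨0, by simp; omega, by simp⟩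
    · rw [Finset.mem_image]; exact ⟨n - 1, by simp; omega, rfl⟩
    · push_cast; ring
    · intro a ha a' ha'
      rw [Finset.mem_image] at ha ha'
      obtain ⟨i, hi, rfl⟩ := ha
      obtain ⟨j, hj, rfl⟩ := ha'
      rw [Finset.mem_range] at hi hj
      push_cast
      have h1 : (j : ℤ) - i ≤ ((n - 1 : ℕ) : ℤ) := by omega
      calc (j : ℤ) * L - i * L = ((j : ℤ) - i) * L := by ring
        _ ≤ ((n - 1 : ℕ) : ℤ) * L := by
          exact mul_le_mul_of_nonneg_right h1 hL'.le
  · apply Pool.Agent.TilePer.Tiles.mk'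
    · intro x
      set r := x % ((n : ℤ) * L) with hr
      have hr0 : 0 ≤ r := Int.emod_nonneg _ hnL.ne'
      have hr1 : r < n * L := Int.emod_lt_of_pos _ hnL
      have hi0 : 0 ≤ r / L := Int.ediv_nonneg hr0 hL'.le
      have hi1 : r / L < n := Int.ediv_lt_of_lt_mul hL' hr1
      obtain ⟨i, hi⟩ : ∃ i : ℕ, (i : ℤ) = r / L := ⟨(r / L).toNat, Int.toNat_of_nonneg hi0⟩
      refine ⟨(i : ℤ) * L, ?_, ?_⟩
      · rw [Finset.mem_image]
        refine ⟨i, ?_, rfl⟩
        rw [Finset.mem_range]
        have : (i : ℤ) < n := by rw [hi]; exact hi1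
        exact_mod_cast this
      · show (x - (i : ℤ) * L) % ((n : ℤ) * L) < L
        have h2 : r % L = r - L * (r / L) := Int.emod_def _ _
        have h3 : 0 ≤ r % L := Int.emod_nonneg _ hL'.ne'
        have h4 : r % L < L := Int.emod_lt_of_pos _ hL'
        have h5 : (x - (i : ℤ) * L) % ((n : ℤ) * L) = (r - (i : ℤ) * L) % ((n : ℤ) * L) := by
          rw [hr, Int.emod_sub_emod]
        rw [h5]
        have h6 : r - (i : ℤ) * L = r % L := by rw [h2, hi]; ring
        rw [h6]
        have h7 : r % L < n * L := by nlinarith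
        rw [Int.emod_eq_of_lt h3 h7]
        exact h4
    · intro a ha a' ha' b hb b' hb' e
      rw [Finset.mem_image] at ha ha'
      obtain ⟨i, hi, rfl⟩ := ha
      obtain ⟨j, hj, rfl⟩ := ha'
      rw [Finset.mem_range] at hi hj
      have hb1 : b % ((n : ℤ) * L) < L := hb
      have hb2 : b' % ((n : ℤ) * L) < L := hb'
      have hb3 := Int.emod_nonneg b hnL.ne'
      have hb4 := Int.emod_nonneg b' hnL.ne'
      have hb5 := Int.mul_ediv_add_emod b ((n : ℤ) * L)
      have hb6 := Int.mul_ediv_add_emod b' ((n : ℤ) * L)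
      set s := b % ((n : ℤ) * L)
      set s' := b' % ((n : ℤ) * L)
      set u := b / ((n : ℤ) * L)
      set u' := b' / ((n : ℤ) * L)
      -- (i + n u - j - n u') L = s' - s
      have h1 : ((i : ℤ) + n * u - (j + n * u')) * L = s' - s := by
        linear_combination e + hb5 - hb6
      have h2 : (i : ℤ) + n * u - (j + n * u') = 0 := by
        have h3 : s' - s < L := by linarith
        have h4 : -(L : ℤ) < s' - s := by linarith
        rw [← h1] at h3 h4
        have h5 : (i : ℤ) + n * u - (j + n * u') < 1 := by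
          by_contra hc
          push Not at hc
          nlinarith
        have h6 : -1 < (i : ℤ) + n * u - (j + n * u') := by
          by_contra hc
          push Not at hc
          nlinarith
        omega
      have h3 : (i : ℤ) - j = n * (u' - u) := by linear_combination h2
      have h4 : u' - u = 0 := by
        have hi' : (i : ℤ) < n := by exact_mod_cast hi
        have hj' : (j : ℤ) < n := by exact_mod_cast hj
        have hi0 : (0 : ℤ) ≤ i := by positivity
        have hj0 : (0 : ℤ) ≤ j := by positivity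
        have h5 : u' - u < 1 := by
          by_contra hc
          push Not at hc
          nlinarith
        have h6 : -1 < u' - u := by
          by_contra hc
          push Not at hc
          nlinarith
        omega
      rw [h4, mul_zero] at h3
      have : (i : ℤ) = j := by linarith
      rw [this]
  · refine ⟨⟨by positivity, fun x => ?_⟩, ?_⟩
    · show (x + ((n * L : ℕ) : ℤ)) % ((n : ℤ) * L) < L ↔ x % ((n : ℤ) * L) < L
      push_cast
      rw [Int.add_emod_right]
    · rintro k ⟨hk0, hk⟩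
      by_contra hcon
      push Not at hcon
      have hkn : (k : ℤ) < n * L := by exact_mod_cast hcon
      have h0 : (0 : ℤ) ∈ {x : ℤ | x % ((n : ℤ) * L) < L} := by
        show (0 : ℤ) % ((n : ℤ) * L) < L
        simpa using hL
      have h1 := (hk 0).2 h0
      rw [zero_add] at h1
      have h1' : (k : ℤ) % ((n : ℤ) * L) < L := h1
      rw [Int.emod_eq_of_lt (by positivity) hkn] at h1'
      have h2 : (L : ℤ) - k ∈ {x : ℤ | x % ((n : ℤ) * L) < L} := by
        show ((L : ℤ) - k) % ((n : ℤ) * L) < L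
        have hk0' : (0 : ℤ) < k := by exact_mod_cast hk0
        rw [Int.emod_eq_of_lt (by linarith) (by nlinarith)]
        linarith
      have h3 := (hk _).2 h2
      have h3' : ((L : ℤ) - k + k) % ((n : ℤ) * L) < L := h3
      rw [sub_add_cancel, Int.emod_eq_of_lt hL'.le (by nlinarith)] at h3'
      exact lt_irrefl _ h3'

theorem result :
    (∀ (A : Finset ℤ) (B : Set ℤ) (p k d m : ℕ), p.Prime → 0 < k → A.card = p ^ k →
      HasDiam A d → Tiles A B → IsMinPeriod B m → (p - 1) * m ≤ p * d) ∧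
    (∀ p L : ℕ, p.Prime → 0 < L →
      IsGreatest {m : ℕ | ∃ (A : Finset ℤ) (B : Set ℤ) (k : ℕ), 0 < k ∧ A.card = p ^ k ∧
        HasDiam A ((p - 1) * L) ∧ Tiles A B ∧ IsMinPeriod B m} (p * L)) ∧
    (∀ d : ℕ, 1 ≤ d →
      IsGreatest {m : ℕ | ∃ (A : Finset ℤ) (B : Set ℤ), IsPrimePow A.card ∧ HasDiam A d ∧
        Tiles A B ∧ IsMinPeriod B m} (2 * d)) := by
  refine ⟨fun A B p k d m hp hk hcard hA hT hm => upper hp hk hcard hA hT hm, ?_, ?_⟩
  · intro p L hp hL
    constructor
    · obtain ⟨A, B, hc, hd, ht, hm⟩ := lower hp.two_le hL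
      exact ⟨A, B, 1, one_pos, by rw [hc, pow_one], hd, ht, hm⟩
    · rintro m ⟨A, B, k, hk, hcard, hA, hT, hm⟩
      have h1 := upper hp hk hcard hA hT hm
      have hp1 : 0 < p - 1 := by have := hp.two_le; omega
      have h2 : (p - 1) * m ≤ (p - 1) * (p * L) := by
        calc (p - 1) * m ≤ p * ((p - 1) * L) := h1
          _ = (p - 1) * (p * L) := by ring
      exact Nat.le_of_mul_le_mul_left h2 hp1
  · intro d hd
    constructor
    · obtain ⟨A, B, hc, hd, ht, hm⟩ := lower (n := 2) (L := d) le_rfl hd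
      refine ⟨A, B, ?_, by simpa using hd, ht, hm⟩
      rw [hc]
      exact Nat.prime_two.isPrimePow
    · rintro m ⟨A, B, hpp, hA, hT, hm⟩
      obtain ⟨p, k, hp, hk, hcard⟩ := (isPrimePow_nat_iff _).1 hpp
      have h1 := upper hp hk hcard.symm hA hT hm
      have hp2 := hp.two_le
      have hp1 : 0 < p - 1 := by omega
      have h3 : p ≤ 2 * (p - 1) := by omega
      have h2 : (p - 1) * m ≤ (p - 1) * (2 * d) := by
        calc (p - 1) * m ≤ p * d := h1
          _ ≤ 2 * (p - 1) * d := Nat.mul_le_mul_right _ h3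
          _ = (p - 1) * (2 * d) := by ring
      exact Nat.le_of_mul_le_mul_left h2 hp1

end Pool.Agent.Results.MP_adb430_co.PrimePower
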